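import Mathlib

namespace Pool.Agent.Results.MP_339e98_lc.SCC

/-- MTL-algebras: bounded integral commutative residuated lattices with prelinearity. -/
structure MTL where
  A : Type
  [lat : Lattice A]
  [bo : BoundedOrder A]
  mul : A → A → A
  imp : A → A → A
  mul_comm : ∀ x y, mul x y = mul y x
  mul_assoc : ∀ x y z, mul (mul x y) z = mul x (mul y z)
  mul_top : ∀ x, mul x ⊤ = x
  res : ∀ x y z, mul x y ≤ z ↔ x ≤ imp y z
  prelin : ∀ x y, imp x y ⊔ imp y x = ⊤

attribute [instance] MTL.lat MTL.bo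

/-- Negation. -/
def MTL.neg (M : MTL) (x : M.A) : M.A := M.imp x ⊥

/-- Totally ordered algebras. -/
def IsChainAlg (M : MTL) : Prop := ∀ x y : M.A, x ≤ y ∨ y ≤ x

/-- IMTL-algebras. -/
def IsI (M : MTL) : Prop := ∀ x, M.neg (M.neg x) = x

/-- ΠMTL-algebras. -/
def IsPi (M : MTL) : Prop :=
  (∀ x y z, M.imp (M.neg (M.neg z)) (M.imp (M.imp (M.mul x z) (M.mul y z)) (M.imp x y)) = ⊤) ∧
    ∀ x, M.imp (x ⊓ M.neg x) ⊥ = ⊤

/-- Propositional formulas. -/
inductive Fm : Type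
  | var : ℕ → Fm
  | bot : Fm
  | top : Fm
  | and : Fm → Fm → Fm
  | or : Fm → Fm → Fm
  | mul : Fm → Fm → Fm
  | imp : Fm → Fm → Fm

/-- Value of a formula under a valuation. -/
def Fm.eval (M : MTL) (v : ℕ → M.A) : Fm → M.A
  | .var n => v n
  | .bot => ⊥
  | .top => ⊤
  | .and a b => a.eval M v ⊓ b.eval M v
  | .or a b => a.eval M v ⊔ b.eval M v
  | .mul a b => M.mul (a.eval M v) (b.eval M v)
  | .imp a b => M.imp (a.eval M v) (b.eval M v)

/-- Tautologies of an algebra. -/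
def Valid (M : MTL) (φ : Fm) : Prop := ∀ v, φ.eval M v = ⊤

/-- Single chain completeness of the logic of the class `P` of MTL-algebras. -/
def HasSCC (P : MTL → Prop) : Prop :=
  ∃ C : MTL, P C ∧ IsChainAlg C ∧ ∀ φ, (∀ M, P M → Valid M φ) ↔ Valid C φ

namespace MTL
variable (M : MTL)

lemma top_mul (x : M.A) : M.mul ⊤ x = x := by rw [M.mul_comm, M.mul_top]

lemma mono_l {x x' : M.A} (y : M.A) (h : x ≤ x') : M.mul x y ≤ M.mul x' y :=
  (M.res _ _ _).2 (h.trans ((M.res _ _ _).1 le_rfl))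

lemma mono {x x' y y' : M.A} (h : x ≤ x') (h' : y ≤ y') : M.mul x y ≤ M.mul x' y' := by
  refine (M.mono_l y h).trans ?_
  rw [M.mul_comm x', M.mul_comm x']
  exact M.mono_l _ h'

lemma mul_le_l (x y : M.A) : M.mul x y ≤ x := by
  have := M.mono (le_refl x) (le_top : y ≤ ⊤)
  rwa [M.mul_top] at this

lemma mul_le_r (x y : M.A) : M.mul x y ≤ y := by rw [M.mul_comm]; exact M.mul_le_l _ _

lemma imp_top {x y : M.A} : M.imp x y = ⊤ ↔ x ≤ y := by
  rw [← top_le_iff, ← M.res, M.top_mul]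

lemma mp (x y : M.A) : M.mul (M.imp x y) x ≤ y := (M.res _ _ _).2 le_rfl

lemma mul_sup (x y z : M.A) : M.mul (x ⊔ y) z = M.mul x z ⊔ M.mul y z :=
  le_antisymm ((M.res _ _ _).2 (sup_le ((M.res _ _ _).1 le_sup_left) ((M.res _ _ _).1 le_sup_right)))
    (sup_le (M.mono_l _ le_sup_left) (M.mono_l _ le_sup_right))

def pw (x : M.A) : ℕ → M.A
  | 0 => ⊤
  | n + 1 => M.mul (pw x n) x

lemma pw_add (x : M.A) (a b : ℕ) : M.pw x (a + b) = M.mul (M.pw x a) (M.pw x b) := by
  induction b with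
  | zero => simp [pw, M.mul_top]
  | succ b ih => rw [← add_assoc, pw, ih, pw, M.mul_assoc]

lemma pw_mono {x y : M.A} (h : x ≤ y) (n : ℕ) : M.pw x n ≤ M.pw y n := by
  induction n with
  | zero => exact le_rfl
  | succ n ih => exact M.mono ih h

lemma pw_anti (x : M.A) {a b : ℕ} (h : a ≤ b) : M.pw x b ≤ M.pw x a := by
  obtain ⟨c, rfl⟩ := Nat.exists_eq_add_of_le h
  rw [pw_add]; exact M.mul_le_l _ _

/-- Approximate inequality. -/
def L (d : M.A) (k : ℕ) (x y : M.A) : Prop := M.mul (M.pw d k) x ≤ y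

variable {M} {d : M.A}

lemma L.of_le {x y : M.A} (h : x ≤ y) : M.L d 0 x y := by rw [L, pw, M.top_mul]; exact h

lemma L.of_imp {x y : M.A} (h : d ≤ M.imp x y) : M.L d 1 x y := by
  rw [L, pw, pw, M.top_mul]; exact (M.res _ _ _).2 h

lemma L.trans {a b : ℕ} {x y z : M.A} (h : M.L d a x y) (h' : M.L d b y z) : M.L d (b + a) x z := by
  rw [L, pw_add, M.mul_assoc]
  exact (M.mono le_rfl h).trans h'

lemma L.weak {a b : ℕ} {x y : M.A} (h : M.L d a x y) (hab : a ≤ b) : M.L d b x y :=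
  (M.mono_l _ (M.pw_anti d hab)).trans h

lemma L.mul_r {a : ℕ} {x y : M.A} (h : M.L d a x y) (z : M.A) :
    M.L d a (M.mul x z) (M.mul y z) := by
  rw [L, ← M.mul_assoc]; exact M.mono_l _ h

lemma L.mul_l {a : ℕ} {x y : M.A} (h : M.L d a x y) (z : M.A) :
    M.L d a (M.mul z x) (M.mul z y) := by
  rw [M.mul_comm z, M.mul_comm z]; exact h.mul_r z

lemma L.neg_iff {a : ℕ} {x y : M.A} : M.L d a x (M.neg y) ↔ M.L d a (M.mul x y) ⊥ := by
  rw [L, L, MTL.neg, ← M.res, M.mul_assoc]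

lemma neg_anti {x y : M.A} (h : x ≤ y) : M.neg y ≤ M.neg x :=
  (M.res _ _ _).1 ((M.mono le_rfl h).trans (M.mp _ _))

lemma clash (hc : IsChainAlg M) {m u m' v : M.A}
    (a1 : M.L d 1 (M.neg m) m) (a2 : M.L d 1 m (M.neg m)) (a3 : M.L d 1 m (M.mul u u))
    (a4 : M.L d 1 (M.mul u m) (M.neg u))
    (b1 : M.L d 1 (M.neg m') m') (b2 : M.L d 1 m' (M.neg m'))
    (b3 : M.L d 1 (M.neg v) (M.mul v m')) (b4 : M.L d 1 (M.neg (M.neg v)) v)
    (b5 : M.L d 1 (M.mul v v) (M.neg v)) : M.pw d 55 ≤ ⊥ := by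
  have h1 : M.L d 2 m' m := by
    rcases hc m m' with h | h
    · exact (b2.trans (L.of_le (neg_anti h))).trans a1
    · exact (L.of_le h).weak (by norm_num)
  have h2 : M.L d 5 u v := by
    rcases hc u v with h | h
    · exact (L.of_le h).weak (by norm_num)
    · have t : M.L d 4 (M.neg v) (M.neg u) :=
        ((b3.trans (h1.mul_l v)).trans (L.of_le (M.mono_l m h))).trans a4
      rw [L.neg_iff, M.mul_comm, ← L.neg_iff] at t
      exact t.trans b4
  have h3 : M.L d 12 m (M.neg v) := ((a3.trans (h2.mul_r u)).trans (h2.mul_l v)).trans b5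
  have h4 : M.L d 12 (M.mul v m) ⊥ := by rw [M.mul_comm, ← L.neg_iff]; exact h3
  have h5 : M.L d 15 (M.neg v) ⊥ := (b3.trans (h1.mul_l v)).trans h4
  have h6 : M.L d 27 m ⊥ := h3.trans h5
  have h7 : M.L d 27 ⊤ (M.neg m) := by rw [L.neg_iff, M.top_mul]; exact h6
  have h8 : M.L d 55 ⊤ ⊥ := (h7.trans a1).trans h6
  rwa [L, M.mul_top] at h8

end MTL

def fneg (a : Fm) : Fm := .imp a .bot

def fpw (a : Fm) : ℕ → Fm
  | 0 => .top
  | n + 1 => .mul (fpw a n) a

lemma eval_fpw (M : MTL) (v) (a : Fm) (n : ℕ) : (fpw a n).eval M v = M.pw (a.eval M v) n := by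
  induction n with
  | zero => rfl
  | succ n ih => simp only [fpw, Fm.eval, ih, MTL.pw]

def dA : Fm :=
  .and (.and (.imp (fneg (.var 0)) (.var 0)) (.imp (.var 0) (fneg (.var 0))))
    (.and (.imp (.var 0) (.mul (.var 1) (.var 1))) (.imp (.mul (.var 1) (.var 0)) (fneg (.var 1))))

def dB : Fm :=
  .and (.and (.imp (fneg (.var 0)) (.var 0)) (.imp (.var 0) (fneg (.var 0))))
    (.and (.imp (fneg (.var 1)) (.mul (.var 1) (.var 0)))
      (.and (.imp (fneg (fneg (.var 1))) (.var 1)) (.imp (.mul (.var 1) (.var 1)) (fneg (.var 1)))))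

lemma split (C : MTL) (hc : IsChainAlg C) :
    Valid C (fneg (fpw dA 55)) ∨ Valid C (fneg (fpw dB 55)) := by
  by_contra h
  simp only [Valid, not_or, not_forall] at h
  obtain ⟨⟨v, hv⟩, ⟨w, hw⟩⟩ := h
  simp only [fneg, Fm.eval, eval_fpw, C.imp_top] at hv hw
  have key : C.pw (dA.eval C v ⊓ dB.eval C w) 55 ≤ ⊥ := by
    have ha : dA.eval C v ⊓ dB.eval C w ≤ dA.eval C v := inf_le_left
    have hb : dA.eval C v ⊓ dB.eval C w ≤ dB.eval C w := inf_le_right
    generalize dA.eval C v ⊓ dB.eval C w = d at ha hb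
    simp only [dA, dB, fneg, Fm.eval, le_inf_iff] at ha hb
    exact MTL.clash hc (.of_imp ha.1.1) (.of_imp ha.1.2) (.of_imp ha.2.1) (.of_imp ha.2.2)
      (.of_imp hb.1.1) (.of_imp hb.1.2) (.of_imp hb.2.1) (.of_imp hb.2.2.1) (.of_imp hb.2.2.2)
  rcases hc (dA.eval C v) (dB.eval C w) with h | h
  · rw [inf_eq_left.2 h] at key; exact hv key
  · rw [inf_eq_right.2 h] at key; exact hw key

def L5 : MTL where
  A := Fin 5
  mul x y := ![![0, 0, 0, 0, 0], ![0, 0, 0, 0, 1], ![0, 0, 0, 1, 2], ![0, 0, 1, 2, 3],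
    ![0, 1, 2, 3, 4]] x y
  imp x y := ![![4, 4, 4, 4, 4], ![3, 4, 4, 4, 4], ![2, 3, 4, 4, 4], ![1, 2, 3, 4, 4],
    ![0, 1, 2, 3, 4]] x y
  mul_comm := by decide
  mul_assoc := by decide
  mul_top := by decide
  res := by decide
  prelin := by decide

def I5 : MTL where
  A := Fin 5
  mul x y := ![![0, 0, 0, 0, 0], ![0, 0, 0, 0, 1], ![0, 0, 0, 1, 2], ![0, 0, 1, 1, 3],
    ![0, 1, 2, 3, 4]] x y
  imp x y := ![![4, 4, 4, 4, 4], ![3, 4, 4, 4, 4], ![2, 3, 4, 4, 4], ![1, 3, 3, 4, 4],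
    ![0, 1, 2, 3, 4]] x y
  mul_comm := by decide
  mul_assoc := by decide
  mul_top := by decide
  res := by decide
  prelin := by decide

lemma pw_top (M : MTL) (n : ℕ) : M.pw ⊤ n = ⊤ := by
  induction n with
  | zero => rfl
  | succ n ih => rw [MTL.pw, ih, M.mul_top]

lemma noSCC (P : MTL → Prop) (h1 : P L5) (h2 : P I5) : ¬ HasSCC P := by
  rintro ⟨C, _, hc, h⟩
  rcases split C hc with k | k
  · have := (h _).2 k L5 h1 (fun n => if n = 0 then (2 : Fin 5) else (3 : Fin 5))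
    simp only [fneg, Fm.eval, eval_fpw] at this
    have e : dA.eval L5 (fun n => if n = 0 then (2 : Fin 5) else (3 : Fin 5)) = ⊤ := by
      change (_ : Fin 5) = _
      decide
    rw [e, pw_top] at this
    revert this
    change ¬ ((_ : Fin 5) = _)
    decide
  · have := (h _).2 k I5 h2 (fun n => if n = 0 then (2 : Fin 5) else (3 : Fin 5))
    simp only [fneg, Fm.eval, eval_fpw] at this
    have e : dB.eval I5 (fun n => if n = 0 then (2 : Fin 5) else (3 : Fin 5)) = ⊤ := by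
      change (_ : Fin 5) = _
      decide
    rw [e, pw_top] at this
    revert this
    change ¬ ((_ : Fin 5) = _)
    decide

/-! Homomorphisms. -/

structure Hom (M N : MTL) (h : M.A → N.A) : Prop where
  bot : h ⊥ = ⊥
  top : h ⊤ = ⊤
  inf : ∀ x y, h (x ⊓ y) = h x ⊓ h y
  sup : ∀ x y, h (x ⊔ y) = h x ⊔ h y
  mul : ∀ x y, h (M.mul x y) = N.mul (h x) (h y)
  imp : ∀ x y, h (M.imp x y) = N.imp (h x) (h y)

lemma Hom.eval {M N : MTL} {h} (H : Hom M N h) (v) (φ : Fm) :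
    h (φ.eval M v) = φ.eval N (fun n => h (v n)) := by
  induction φ with
  | var n => rfl
  | bot => exact H.bot
  | top => exact H.top
  | and a b i1 i2 => simp only [Fm.eval]; rw [H.inf, i1, i2]
  | or a b i1 i2 => simp only [Fm.eval]; rw [H.sup, i1, i2]
  | mul a b i1 i2 => simp only [Fm.eval]; rw [H.mul, i1, i2]
  | imp a b i1 i2 => simp only [Fm.eval]; rw [H.imp, i1, i2]

structure Filt (M : MTL) (F : Set M.A) : Prop where
  top : ⊤ ∈ F
  up : ∀ x ∈ F, ∀ y, x ≤ y → y ∈ F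
  mul : ∀ x ∈ F, ∀ y ∈ F, M.mul x y ∈ F

lemma sup_pw (M : MTL) {p q : M.A} (h : p ⊔ q = ⊤) (n : ℕ) : M.pw p n ⊔ q = ⊤ := by
  induction n with
  | zero => simp [MTL.pw]
  | succ n ih =>
    rw [← top_le_iff, ← M.mul_top ⊤]
    conv_lhs => rw [← ih]
    rw [M.mul_sup]
    refine sup_le ?_ ((M.mul_le_l _ _).trans le_sup_right)
    rw [ih, ← h, M.mul_comm, M.mul_sup]
    refine sup_le ?_ ((M.mul_le_l _ _).trans le_sup_right)
    rw [M.mul_comm]
    exact le_sup_left

lemma prime_filter (M : MTL) {a : M.A} (ha : a ≠ ⊤) :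
    ∃ F, Filt M F ∧ a ∉ F ∧ ∀ x y, M.imp x y ∈ F ∨ M.imp y x ∈ F := by
  obtain ⟨F, -, hF⟩ := zorn_subset_nonempty {F | Filt M F ∧ a ∉ F} (by
      intro c hc hch ⟨F0, hF0⟩
      refine ⟨⋃₀ c, ⟨⟨⟨F0, hF0, (hc hF0).1.top⟩, ?_, ?_⟩, ?_⟩, fun s hs => Set.subset_sUnion_of_mem hs⟩
      · rintro x ⟨s, hs, hx⟩ y hxy
        exact ⟨s, hs, (hc hs).1.up x hx y hxy⟩
      · rintro x ⟨s, hs, hx⟩ y ⟨t, ht, hy⟩
        rcases hch.total hs ht with h | h
        · exact ⟨t, ht, (hc ht).1.mul x (h hx) y hy⟩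
        · exact ⟨s, hs, (hc hs).1.mul x hx y (h hy)⟩
      · rintro ⟨s, hs, hx⟩
        exact (hc hs).2 hx) {⊤}
    ⟨⟨rfl, fun x hx y h => by rw [Set.mem_singleton_iff] at *; exact top_le_iff.1 (hx ▸ h),
      fun x hx y hy => by rw [Set.mem_singleton_iff] at *; rw [hx, hy, M.mul_top]⟩, ha⟩
  have gen : ∀ p, p ∉ F → ∃ f ∈ F, ∃ n, M.mul f (M.pw p n) ≤ a := by
    intro p hp
    by_contra hcon
    push Not at hcon
    have h1 : {y | ∃ f ∈ F, ∃ n, M.mul f (M.pw p n) ≤ y} ∈ {F | Filt M F ∧ a ∉ F} := by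
      refine ⟨⟨⟨⊤, hF.1.1.top, 0, le_top⟩, ?_, ?_⟩, ?_⟩
      · rintro x ⟨f, hf, n, h⟩ y hxy
        exact ⟨f, hf, n, h.trans hxy⟩
      · rintro x ⟨f, hf, n, h⟩ y ⟨g, hg, m, h'⟩
        refine ⟨_, hF.1.1.mul f hf g hg, n + m, le_trans (le_of_eq ?_) (M.mono h h')⟩
        rw [M.pw_add, M.mul_assoc, M.mul_assoc, ← M.mul_assoc g, M.mul_comm g, M.mul_assoc]
      · rintro ⟨f, hf, n, h⟩
        exact hcon f hf n h
    have h2 : F ⊆ {y | ∃ f ∈ F, ∃ n, M.mul f (M.pw p n) ≤ y} :=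
      fun y hy => ⟨y, hy, 0, M.mul_le_l _ _⟩
    exact hp (hF.2 h1 h2 ⟨⊤, hF.1.1.top, 1, by rw [M.top_mul, MTL.pw, MTL.pw, M.top_mul]⟩)
  refine ⟨F, hF.1.1, hF.1.2, fun x y => ?_⟩
  by_contra hcon
  push Not at hcon
  obtain ⟨f, hf, n, h⟩ := gen _ hcon.1
  obtain ⟨g, hg, m, h'⟩ := gen _ hcon.2
  have e : M.pw (M.imp y x) m ⊔ M.pw (M.imp x y) n = ⊤ :=
    sup_pw M (by rw [sup_comm]; exact sup_pw M (M.prelin x y) n) m
  apply hF.1.2
  apply hF.1.1.up _ (hF.1.1.mul f hf g hg)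
  rw [← M.top_mul (M.mul f g), ← e, M.mul_sup]
  refine sup_le (le_trans ?_ h') (le_trans ?_ h)
  · rw [M.mul_comm]; exact M.mono_l _ (M.mul_le_r _ _)
  · rw [M.mul_comm]; exact M.mono_l _ (M.mul_le_l _ _)

section quotient
variable {M : MTL} {F : Set M.A} (hF : Filt M F) (hp : ∀ x y, M.imp x y ∈ F ∨ M.imp y x ∈ F)
include hF

lemma q_of_le {x y : M.A} (h : x ≤ y) : M.imp x y ∈ F := by rw [M.imp_top.2 h]; exact hF.top

lemma q_trans {x y z : M.A} (h : M.imp x y ∈ F) (h' : M.imp y z ∈ F) : M.imp x z ∈ F := by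
  refine hF.up _ (hF.mul _ h' _ h) _ ((M.res _ _ _).1 ?_)
  rw [M.mul_assoc]
  exact (M.mono le_rfl (M.mp _ _)).trans (M.mp _ _)

lemma q_mul {x x' y y' : M.A} (h : M.imp x x' ∈ F) (h' : M.imp y y' ∈ F) :
    M.imp (M.mul x y) (M.mul x' y') ∈ F := by
  have k : ∀ {x x'} y, M.imp x x' ∈ F → M.imp (M.mul x y) (M.mul x' y) ∈ F := by
    intro x x' y h
    refine hF.up _ h _ ((M.res _ _ _).1 ?_)
    rw [← M.mul_assoc]
    exact M.mono_l _ (M.mp _ _)
  refine q_trans hF (k y h) ?_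
  rw [M.mul_comm x', M.mul_comm x']
  exact k _ h'

omit hF in
lemma q_res {x y z : M.A} : M.imp (M.mul x y) z ∈ F ↔ M.imp x (M.imp y z) ∈ F := by
  have : M.imp (M.mul x y) z = M.imp x (M.imp y z) := by
    apply eq_of_forall_le_iff
    intro c
    rw [← M.res, ← M.res, ← M.res, M.mul_assoc]
  rw [this]

lemma q_imp {y y' z z' : M.A} (h : M.imp y' y ∈ F) (h' : M.imp z z' ∈ F) :
    M.imp (M.imp y z) (M.imp y' z') ∈ F :=
  q_res.1 (q_trans hF (q_mul hF (q_of_le hF le_rfl) h) (q_trans hF (q_of_le hF (M.mp _ _)) h'))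

def qs : Setoid M.A where
  r x y := M.imp x y ∈ F ∧ M.imp y x ∈ F
  iseqv := ⟨fun _ => ⟨q_of_le hF le_rfl, q_of_le hF le_rfl⟩, fun h => ⟨h.2, h.1⟩,
    fun h h' => ⟨q_trans hF h.1 h'.1, q_trans hF h'.2 h.2⟩⟩

def QT : Type := Quotient (qs hF)

@[reducible] noncomputable def qlo : LinearOrder (QT hF) where
  le := Quotient.lift₂ (fun x y => M.imp x y ∈ F) (fun _ _ _ _ h h' => propext
    ⟨fun k => q_trans hF h.2 (q_trans hF k h'.1), fun k => q_trans hF h.1 (q_trans hF k h'.2)⟩)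
  le_refl := by rintro ⟨x⟩; exact q_of_le hF le_rfl
  le_trans := by rintro ⟨x⟩ ⟨y⟩ ⟨z⟩ h h'; exact q_trans hF h h'
  le_antisymm := by rintro ⟨x⟩ ⟨y⟩ h h'; exact Quotient.sound ⟨h, h'⟩
  le_total := by rintro ⟨x⟩ ⟨y⟩; exact hp x y
  toDecidableLE := Classical.decRel _

noncomputable def QM : MTL :=
  letI := qlo hF hp
  { A := QT hF
    bo :=
      { top := Quotient.mk (qs hF) ⊤
        bot := Quotient.mk (qs hF) ⊥
        le_top := by rintro ⟨x⟩; exact q_of_le hF le_top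
        bot_le := by rintro ⟨x⟩; exact q_of_le hF bot_le }
    mul := Quotient.map₂ M.mul (fun _ _ h _ _ h' => ⟨q_mul hF h.1 h'.1, q_mul hF h.2 h'.2⟩)
    imp := Quotient.map₂ M.imp (fun _ _ h _ _ h' => ⟨q_imp hF h.2 h'.1, q_imp hF h.1 h'.2⟩)
    mul_comm := by rintro ⟨x⟩ ⟨y⟩; exact congrArg (Quotient.mk (qs hF)) (M.mul_comm x y)
    mul_assoc := by rintro ⟨x⟩ ⟨y⟩ ⟨z⟩; exact congrArg (Quotient.mk (qs hF)) (M.mul_assoc x y z)
    mul_top := by rintro ⟨x⟩; exact congrArg (Quotient.mk (qs hF)) (M.mul_top x)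
    res := by rintro ⟨x⟩ ⟨y⟩ ⟨z⟩; exact q_res
    prelin := by
      rintro ⟨x⟩ ⟨y⟩
      rcases hp x y with h | h
      · refine le_antisymm (sup_le (q_of_le hF le_top) (q_of_le hF le_top))
          (le_trans ?_ le_sup_left)
        exact q_res.1 (by rwa [M.top_mul])
      · refine le_antisymm (sup_le (q_of_le hF le_top) (q_of_le hF le_top))
          (le_trans ?_ le_sup_right)
        exact q_res.1 (by rwa [M.top_mul]) }

lemma QM_le (x y : M.A) :
    @LE.le (QM hF hp).A _ (Quotient.mk (qs hF) x) (Quotient.mk (qs hF) y) ↔ M.imp x y ∈ F := Iff.rfl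

lemma QM_chain : IsChainAlg (QM hF hp) := by rintro ⟨x⟩ ⟨y⟩; exact hp x y

lemma QM_hom : Hom M (QM hF hp) (Quotient.mk (qs hF)) where
  bot := rfl
  top := rfl
  mul _ _ := rfl
  imp _ _ := rfl
  inf x y := by
    refine le_antisymm (le_inf (q_of_le hF inf_le_left) (q_of_le hF inf_le_right)) ?_
    have k : ∀ x y : M.A, M.imp x y ∈ F → M.imp x (x ⊓ y) ∈ F := fun x y h =>
      hF.up _ h _ ((M.res _ _ _).1 (le_inf (M.mul_le_r _ _) (M.mp _ _)))
    rcases hp x y with h | h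
    · exact le_trans inf_le_left ((QM_le hF hp _ _).2 (k x y h))
    · rw [inf_comm x y]
      exact le_trans inf_le_right ((QM_le hF hp _ _).2 (k y x h))
  sup x y := by
    refine le_antisymm ?_ (sup_le (q_of_le hF le_sup_left) (q_of_le hF le_sup_right))
    have k : ∀ x y : M.A, M.imp x y ∈ F → M.imp (x ⊔ y) y ∈ F := fun x y h =>
      hF.up _ h _ ((M.res _ _ _).1 (by
        rw [M.mul_comm, M.mul_sup]
        exact sup_le (by rw [M.mul_comm]; exact M.mp _ _) (M.mul_le_l _ _)))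
    rcases hp x y with h | h
    · exact le_trans ((QM_le hF hp _ _).2 (k x y h)) le_sup_right
    · rw [sup_comm x y]
      exact le_trans ((QM_le hF hp _ _).2 (k y x h)) le_sup_left

end quotient

lemma Hom.isPi {M N : MTL} {h} (H : Hom M N h) (hs : Function.Surjective h) (hM : IsPi M) :
    IsPi N := by
  constructor
  · intro x y z
    obtain ⟨x, rfl⟩ := hs x
    obtain ⟨y, rfl⟩ := hs y
    obtain ⟨z, rfl⟩ := hs z
    have := congrArg h (hM.1 x y z)
    simpa only [MTL.neg, H.imp, H.mul, H.bot, H.top] using this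
  · intro x
    obtain ⟨x, rfl⟩ := hs x
    have := congrArg h (hM.2 x)
    simpa only [MTL.neg, H.imp, H.inf, H.bot, H.top] using this

lemma chain_refute {φ : Fm} (h : ¬ ∀ M, IsPi M → Valid M φ) :
    ∃ M, IsPi M ∧ IsChainAlg M ∧ ¬ Valid M φ := by
  simp only [Valid, not_forall] at h
  obtain ⟨M, hM, v, hv⟩ := h
  obtain ⟨F, hF, ha, hp⟩ := prime_filter M hv
  refine ⟨QM hF hp, (QM_hom hF hp).isPi Quot.mk_surjective hM, QM_chain hF hp, fun hval => ?_⟩
  have := hval (fun n => Quotient.mk (qs hF) (v n))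
  rw [← (QM_hom hF hp).eval] at this
  have e : M.imp ⊤ (φ.eval M v) ∈ F := (QM_le hF hp _ _).1 (le_of_eq this.symm)
  exact ha (hF.up _ e _ (by have := M.mp ⊤ (φ.eval M v); rwa [M.mul_top] at this))

/-- Cancellative residuated chains without bottom. -/
structure CH (α : Type) [LinearOrder α] [OrderTop α] where
  mul : α → α → α
  imp : α → α → α
  mul_comm : ∀ x y, mul x y = mul y x
  mul_assoc : ∀ x y z, mul (mul x y) z = mul x (mul y z)
  mul_top : ∀ x, mul x ⊤ = x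
  res : ∀ x y z, mul x y ≤ z ↔ x ≤ imp y z
  cancel : ∀ x y z, mul x z ≤ mul y z → x ≤ y

section lex
variable {ι : Type} [LinearOrder ι] [WellFoundedLT ι] {β : ι → Type} [∀ i, LinearOrder (β i)]
  [∀ i, OrderTop (β i)] (c : ∀ i, CH (β i))

omit [∀ i, OrderTop (β i)] in
lemma lex_le {a b : Lex (∀ i, β i)} : a ≤ b ↔ ∀ i, (∀ j < i, a j = b j) → a i ≤ b i := by
  refine ⟨fun h i hi => Pi.apply_le_of_toLex (x := ofLex a) (y := ofLex b) h hi, fun h => ?_⟩
  by_contra hc
  obtain ⟨i, h1, h2⟩ := not_le.1 hc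
  exact absurd (h i fun j hj => (h1 j hj).symm) (not_le.2 h2)

open Classical in
noncomputable def lexImp (a b : Lex (∀ i, β i)) : Lex (∀ i, β i) :=
  toLex fun i => if ∀ j < i, (c j).mul ((c j).imp (a j) (b j)) (a j) = b j
    then (c i).imp (a i) (b i) else ⊤

noncomputable def lexCH : CH (Lex (∀ i, β i)) where
  mul a b := toLex fun i => (c i).mul (a i) (b i)
  imp := lexImp c
  mul_comm a b := congrArg toLex (funext fun i => (c i).mul_comm _ _)
  mul_assoc a b d := congrArg toLex (funext fun i => (c i).mul_assoc _ _ _)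
  mul_top a := congrArg toLex (funext fun i => (c i).mul_top _)
  res x y z := by
    rw [lex_le, lex_le]
    simp only [lexImp, Pi.toLex_apply]
    constructor
    · intro h i hi
      split_ifs with hc
      · refine ((c i).res _ _ _).1 (h i fun j hj => ?_)
        rw [hi j hj, if_pos (fun k hk => hc k (hk.trans hj))]
        exact hc j hj
      · exact le_top
    · intro h i hi
      have e : ∀ j < i, x j = (c j).imp (y j) (z j) := fun j hj =>
        le_antisymm (((c j).res _ _ _).1 (hi j hj).le)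
          ((c j).cancel _ _ (y j) ((((c j).res _ _ _).2 le_rfl).trans (hi j hj).ge))
      have hc : ∀ j < i, (c j).mul ((c j).imp (y j) (z j)) (y j) = z j := fun j hj => by
        rw [← e j hj]; exact hi j hj
      have := h i fun j hj => by rw [if_pos (fun k hk => hc k (hk.trans hj))]; exact e j hj
      rw [if_pos hc] at this
      exact ((c i).res _ _ _).2 this
  cancel x y z := by
    rw [lex_le, lex_le]
    intro h i hi
    exact (c i).cancel _ _ _ (h i fun j hj => by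
      change (c j).mul _ _ = (c j).mul _ _
      rw [hi j hj])

open Classical in
noncomputable def sing (i : ι) (a : β i) : Lex (∀ i, β i) := toLex (Function.update (fun _ => ⊤) i a)

omit [WellFoundedLT ι] in
lemma sing_self (i : ι) (a : β i) : sing i a i = a := by simp [sing]

omit [WellFoundedLT ι] in
lemma sing_ne {i j : ι} (h : j ≠ i) (a : β i) : sing i a j = ⊤ := by simp [sing, h]

lemma sing_le {i : ι} {a b : β i} : sing i a ≤ sing i b ↔ a ≤ b := by
  rw [lex_le]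
  constructor
  · intro h
    have := h i fun j hj => by rw [sing_ne hj.ne, sing_ne hj.ne]
    rwa [sing_self, sing_self] at this
  · intro h j _
    by_cases e : j = i
    · subst e; rwa [sing_self, sing_self]
    · rw [sing_ne e, sing_ne e]

lemma sing_top (i : ι) : sing i (⊤ : β i) = ⊤ := by
  funext j
  by_cases e : j = i
  · subst e; rw [sing_self]; rfl
  · rw [sing_ne e]; rfl

lemma sing_mul (i : ι) (a b : β i) :
    sing i ((c i).mul a b) = (lexCH c).mul (sing i a) (sing i b) := by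
  funext j
  change _ = (c j).mul _ _
  by_cases e : j = i
  · subst e; rw [sing_self, sing_self, sing_self]
  · rw [sing_ne e, sing_ne e, sing_ne e, (c j).mul_top]

lemma sing_imp (i : ι) (a b : β i) :
    sing i ((c i).imp a b) = (lexCH c).imp (sing i a) (sing i b) := by
  have tt : ∀ j, (c j).imp ⊤ ⊤ = ⊤ := fun j => top_le_iff.1 (((c j).res _ _ _).1 le_top)
  funext j
  change _ = lexImp c _ _ j
  simp only [lexImp, Pi.toLex_apply]
  by_cases e : j = i
  · subst e
    rw [if_pos, sing_self, sing_self, sing_self]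
    intro k hk
    rw [sing_ne hk.ne, sing_ne hk.ne, (c k).mul_top, tt]
  · rw [sing_ne e, sing_ne e, sing_ne e, tt, ite_self]

end lex

section wb
variable {α : Type} [LinearOrder α] [OrderTop α] (c : CH α)

def wm : WithBot α → WithBot α → WithBot α
  | some a, some b => some (c.mul a b)
  | _, _ => ⊥

def wi : WithBot α → WithBot α → WithBot α
  | none, _ => ⊤
  | some _, none => ⊥
  | some a, some b => some (c.imp a b)

@[simp] lemma wm1 (x) : wm c ⊥ x = ⊥ := rfl
@[simp] lemma wm2 (x) : wm c x ⊥ = ⊥ := by cases x <;> rfl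
@[simp] lemma wm3 (a b : α) : wm c (a : WithBot α) (b : WithBot α) = (c.mul a b : α) := rfl
@[simp] lemma wi1 (x) : wi c ⊥ x = ⊤ := rfl
@[simp] lemma wi2 (a : α) : wi c (a : WithBot α) ⊥ = ⊥ := rfl
@[simp] lemma wi3 (a b : α) : wi c (a : WithBot α) (b : WithBot α) = (c.imp a b : α) := rfl

lemma CH.imp_top {a b : α} : c.imp a b = ⊤ ↔ a ≤ b := by
  rw [← top_le_iff, ← c.res, c.mul_comm, c.mul_top]

def WB : MTL where
  A := WithBot α
  mul := wm c
  imp := wi c
  mul_comm x y := by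
    induction x using WithBot.recBotCoe <;> induction y using WithBot.recBotCoe <;>
      simp [c.mul_comm]
  mul_assoc x y z := by
    induction x using WithBot.recBotCoe <;> induction y using WithBot.recBotCoe <;>
      induction z using WithBot.recBotCoe <;> simp [c.mul_assoc]
  mul_top x := by
    induction x using WithBot.recBotCoe
    · rfl
    · rw [← WithBot.coe_top, wm3, c.mul_top]
  res x y z := by
    induction x using WithBot.recBotCoe <;> induction y using WithBot.recBotCoe <;>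
      induction z using WithBot.recBotCoe <;> simp [c.res]
  prelin x y := by
    induction x using WithBot.recBotCoe <;> induction y using WithBot.recBotCoe <;>
      simp only [wi1, wi2, wi3, top_sup_eq, sup_top_eq]
    rename_i a b
    rcases le_total a b with h | h
    · rw [c.imp_top.2 h]; simp
    · rw [c.imp_top.2 h]; simp

lemma WB_chain : IsChainAlg (WB c) := fun x y => le_total (α := WithBot α) x y

lemma WB_pi : IsPi (WB c) := by
  constructor
  · intro x y z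
    rw [MTL.imp_top]
    change wi c (wi c z ⊥) ⊥ ≤ wi c (wi c (wm c x z) (wm c y z)) (wi c x y)
    induction z using WithBot.recBotCoe
    · rw [wi1, ← WithBot.coe_top, wi2]; exact bot_le
    rename_i d
    rw [wi2, wi1]
    induction x using WithBot.recBotCoe
    · rw [wi1, wm1, wi1, ← WithBot.coe_top, wi3, c.imp_top.2 le_rfl]
    induction y using WithBot.recBotCoe
    · simp
    rename_i a b
    simp only [wm3, wi3]
    rw [c.imp_top.2, WithBot.coe_top]
    rw [← c.res]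
    apply c.cancel _ _ d
    rw [c.mul_assoc]
    exact (c.res _ _ _).2 le_rfl
  · intro x
    rw [MTL.imp_top]
    change x ⊓ wi c x ⊥ ≤ (⊥ : WithBot α)
    induction x using WithBot.recBotCoe <;> simp

end wb

section pos
variable {M : MTL} (hc : IsChainAlg M) (hP : IsPi M) (hn : (⊤ : M.A) ≠ ⊥)
include hc hP

lemma neg_pos {x : M.A} (hx : x ≠ ⊥) : M.neg x = ⊥ := by
  have := M.imp_top.1 (hP.2 x)
  rcases hc x (M.neg x) with h | h
  · rw [inf_eq_left.2 h] at this; exact (hx (le_bot_iff.1 this)).elim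
  · rw [inf_eq_right.2 h] at this; exact le_bot_iff.1 this

lemma mul_pos' {x y : M.A} (hx : x ≠ ⊥) (hy : y ≠ ⊥) : M.mul x y ≠ ⊥ := fun h => by
  have : x ≤ M.neg y := (M.res _ _ _).1 h.le
  rw [neg_pos hc hP hy] at this
  exact hx (le_bot_iff.1 this)

omit hc hP in
lemma imp_pos (x : M.A) {y : M.A} (hy : y ≠ ⊥) : M.imp x y ≠ ⊥ := fun h =>
  hy (le_bot_iff.1 (h ▸ (M.res _ _ _).1 (M.mul_le_l _ _)))

omit hc hP in
def Pos (M : MTL) : Type := {x : M.A // x ≠ ⊥}

omit hP in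
@[reducible] noncomputable def posLO : LinearOrder (Pos M) where
  le x y := x.1 ≤ y.1
  le_refl _ := le_rfl
  le_trans _ _ _ := le_trans
  le_antisymm _ _ h h' := Subtype.ext (le_antisymm h h')
  le_total x y := hc x.1 y.1
  toDecidableLE := Classical.decRel _

omit hP in
@[reducible] def posOT : @OrderTop (Pos M) (posLO hc).toLE :=
  letI := posLO hc
  { top := ⟨⊤, hn⟩
    le_top := fun x => (le_top : x.1 ≤ ⊤) }

noncomputable def posCH : @CH (Pos M) (posLO hc) (posOT hc hn) :=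
  letI := posLO hc
  letI := posOT hc hn
  { mul := fun x y => ⟨M.mul x.1 y.1, mul_pos' hc hP x.2 y.2⟩
    imp := fun x y => ⟨M.imp x.1 y.1, imp_pos x.1 y.2⟩
    mul_comm := fun _ _ => Subtype.ext (M.mul_comm _ _)
    mul_assoc := fun _ _ _ => Subtype.ext (M.mul_assoc _ _ _)
    mul_top := fun _ => Subtype.ext (M.mul_top _)
    res := fun _ _ _ => M.res _ _ _
    cancel := fun x y z h => by
      have h1 := M.imp_top.1 (hP.1 x.1 y.1 z.1)
      rw [neg_pos hc hP z.2, MTL.neg, M.imp_top.2 le_rfl, top_le_iff, M.imp_top,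
        M.imp_top.2 (show M.mul x.1 z.1 ≤ M.mul y.1 z.1 from h), top_le_iff, M.imp_top] at h1
      exact h1 }

end pos

lemma piSCC : HasSCC IsPi := by
  classical
  let ι : Type := {φ : Fm // ¬ ∀ M, IsPi M → Valid M φ}
  obtain ⟨lo, wf⟩ := exists_wellOrder ι
  choose M hP hc hv using fun i : ι => chain_refute i.2
  have hn : ∀ i, (⊤ : (M i).A) ≠ ⊥ := fun i h => hv i fun v =>
    top_le_iff.1 (h ▸ bot_le)
  letI : ∀ i, LinearOrder (Pos (M i)) := fun i => posLO (hc i)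
  letI : ∀ i, OrderTop (Pos (M i)) := fun i => posOT (hc i) (hn i)
  let c : ∀ i, CH (Pos (M i)) := fun i => posCH (hc i) (hP i) (hn i)
  refine ⟨WB (lexCH c), WB_pi _, WB_chain _, fun φ => ⟨fun h => h _ (WB_pi _), fun h => ?_⟩⟩
  by_contra hφ
  let i : ι := ⟨φ, hφ⟩
  let f : (M i).A → WithBot (Lex (∀ j, Pos (M j))) := fun x =>
    if hx : x = ⊥ then ⊥ else (sing i (⟨x, hx⟩ : Pos (M i)) : Lex (∀ j, Pos (M j)))
  have f0 : f ⊥ = ⊥ := dif_pos rfl
  have f1 : ∀ x (hx : x ≠ ⊥), f x = (sing i (⟨x, hx⟩ : Pos (M i)) : Lex (∀ j, Pos (M j))) :=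
    fun x hx => dif_neg hx
  have fle : ∀ x y, f x ≤ f y ↔ x ≤ y := by
    intro x y
    by_cases hx : x = ⊥
    · subst hx; rw [f0]; simp
    by_cases hy : y = ⊥
    · subst hy; rw [f0, f1 x hx]; simp [hx]
    rw [f1 x hx, f1 y hy, WithBot.coe_le_coe, sing_le]
    rfl
  have ft : f ⊤ = ⊤ := by
    rw [f1 _ (hn i), ← WithBot.coe_top, ← sing_top i]
    rfl
  have H : Hom (M i) (WB (lexCH c)) f := by
    refine ⟨f0, ft, fun x y => ?_, fun x y => ?_, fun x y => ?_, fun x y => ?_⟩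
    · rcases hc i x y with k | k
      · rw [inf_eq_left.2 k]; exact (inf_eq_left.2 ((fle _ _).2 k)).symm
      · rw [inf_eq_right.2 k]; exact (inf_eq_right.2 ((fle _ _).2 k)).symm
    · rcases hc i x y with k | k
      · rw [sup_eq_right.2 k]; exact (sup_eq_right.2 ((fle _ _).2 k)).symm
      · rw [sup_eq_left.2 k]; exact (sup_eq_left.2 ((fle _ _).2 k)).symm
    · change _ = wm _ _ _
      by_cases hx : x = ⊥
      · subst hx; rw [le_bot_iff.1 ((M i).mul_le_l ⊥ y), f0, wm1]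
      by_cases hy : y = ⊥
      · subst hy; rw [le_bot_iff.1 ((M i).mul_le_r x ⊥), f0, wm2]
      rw [f1 x hx, f1 y hy, f1 _ (mul_pos' (hc i) (hP i) hx hy), wm3, ← sing_mul]
      rfl
    · change _ = wi _ _ _
      by_cases hx : x = ⊥
      · subst hx; rw [(M i).imp_top.2 bot_le, ft, f0, wi1]
      by_cases hy : y = ⊥
      · subst hy
        rw [f1 x hx, f0, wi2, ← f0]
        exact congrArg f (neg_pos (hc i) (hP i) hx)
      rw [f1 x hx, f1 y hy, f1 _ (imp_pos x hy), wi3, ← sing_imp]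
      rfl
  apply hv i
  intro v
  have := h (fun n => f (v n))
  rw [← H.eval] at this
  exact top_le_iff.1 ((fle _ _).1 (by rw [ft]; exact this.ge))

theorem result : ¬ HasSCC (fun _ => True) ∧ ¬ HasSCC IsI ∧ HasSCC IsPi := by
  refine ⟨noSCC _ trivial trivial, noSCC _ ?_ ?_, piSCC⟩
  · change ∀ x : Fin 5, _ = x
    decide
  · change ∀ x : Fin 5, _ = x
    decide

end Pool.Agent.Results.MP_339e98_lc.SCC
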